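import Pool.Agent.Helper67.R12.Sheet
import Pool.Agent.Helper46.R8.CERT

/-! Row CERT (helper46), after Helper46/R8/CERT.lean. -/

set_option autoImplicit false

namespace Pool.Helper67.R12

open Pool.Agent.Helper97.RK (cur)
open Pool.Helper17.R8 (ek fI fJ yv y9 xX)
open Pool.Helper34.R9 (wF)

namespace S46

open Pool.Helper17.R8.S46 (map_ek map_yv map_y9 map_xX)

section
variable {R S : Type*} [CommRing R] [CommRing S]

theorem map_eks (f : R →+* S) (σ : Fin 8 → R) :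
    (fun k => f (ek σ k)) = ek (fun i => f (σ i)) :=
  funext fun k => map_ek f σ k

theorem map_wF (f : R →+* S) (e : ℕ → R) (t X Z Y : R) :
    f (wF e t X Z Y) = wF (fun k => f (e k)) (f t) (f X) (f Z) (f Y) := by
  unfold wF
  simp only [map_add, map_sub, map_mul, map_pow, map_ofNat]

theorem map_kX (f : R →+* S) (σ : Fin 8 → R) (k : Fin 4) (y : R) :
    f (kX σ k y) = kX (fun i => f (σ i)) k (f y) := by
  unfold kX kap sg1 sg2 sg3 sg4 c1 c2 c3 c4
  simp only [map_add, map_sub, map_mul, map_pow]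

theorem map_kY (f : R →+* S) (σ : Fin 8 → R) (k : Fin 4) (y : R) :
    f (kY σ k y) = kY (fun i => f (σ i)) k (f y) := by
  unfold kY kap sg1 sg2 sg3 sg4 c1 c2 c3 c4
  simp only [map_add, map_sub, map_mul, map_pow, map_neg, map_ofNat]

/-- `fx` over any ring -/
def gfx (s : Fin 8 → R) (t : R) (y : Fin 4 → R) (j : Fin 12) : R :=
  if h : (j : ℕ) < 7 then
    3 * xX (ek s) t (s ⟨j, by omega⟩ ^ 2) (yv (ek s) t (s ⟨j, by omega⟩)) (s 7 ^ 2) 1
      (yv (ek s) t (s 7))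
  else if (j : ℕ) = 7 then
    3 * xX (ek s) t (s 0 ^ 2) (yv (ek s) t (s 0)) (-(ek s 8)) t (y9 (ek s) t)
  else
    let k : Fin 4 := ⟨(j : ℕ) - 8, by omega⟩
    3 * xX (ek s) t (s (rf k) ^ 2) (yv (ek s) t (s (rf k))) (kY s k (y k) * y k)
      (kX s k (y k) * y k) (wF (ek s) t (kX s k (y k)) (y k) (kY s k (y k)))

/-- `fv` over any ring -/
def gfv (s : Fin 8 → R) (t : R) (y : Fin 4 → R) (j : Fin 12) : R :=
  if h : (j : ℕ) < 7 then 6 * (s ⟨j, by omega⟩ ^ 2 - s 7 ^ 2)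
  else if (j : ℕ) = 7 then 6 * (s 0 ^ 2 * t + ek s 8)
  else
    let k : Fin 4 := ⟨(j : ℕ) - 8, by omega⟩
    6 * (s (rf k) ^ 2 * (kX s k (y k) * y k) - kY s k (y k) * y k)

theorem map_gfx (f : R →+* S) (σ : Fin 8 → R) (t : R) (y : Fin 4 → R) (j : Fin 12) :
    f (gfx σ t y j) = gfx (fun i => f (σ i)) (f t) (fun k => f (y k)) j := by
  unfold gfx
  split_ifs with h1 h2
  · rw [map_mul, map_ofNat, map_xX, map_yv, map_yv, map_pow, map_pow, map_eks, map_one]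
  · rw [map_mul, map_ofNat, map_xX, map_yv, map_y9, map_neg, map_pow, map_eks, map_ek]
  · dsimp only
    rw [map_mul, map_ofNat, map_xX, map_yv, map_wF, map_pow, map_mul, map_mul, map_kX, map_kY,
      map_eks]

theorem map_gfv (f : R →+* S) (σ : Fin 8 → R) (t : R) (y : Fin 4 → R) (j : Fin 12) :
    f (gfv σ t y j) = gfv (fun i => f (σ i)) (f t) (fun k => f (y k)) j := by
  unfold gfv
  split_ifs with h1 h2
  · rw [map_mul, map_ofNat, map_sub, map_pow, map_pow]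
  · rw [map_mul, map_ofNat, map_add, map_mul, map_pow, map_ek]
  · dsimp only
    rw [map_mul, map_ofNat, map_sub, map_mul, map_mul, map_mul, map_pow, map_kX, map_kY]

end

/-- the numerators at the base -/
def XB : Fin 12 → ℤ := ![18870106471543397700, -12076435983515917248,
  -3949654410816361200, 14756510145915831312, 162726363625160592, 1547438165851050000,
  -155525527404020903868, -1059775994128191429215304907369868700,
  631394422593670292056622791989873300, 14427510291617198333088835321935300,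
  4556220612406644780216618495571692000, 567377267180429220035312822307374317500]

/-- the denominators at the base -/
def VB : Fin 12 → ℤ := ![5670, 2592, 2040, -648, 312, 1080, 8262, 662952806010, 711754494690,
  105855790890, 1672529500110, -19724183307150]

theorem gfx_val (j : Fin 12) : gfx sb 112783871 yb j = XB j := by
  revert j
  decide +kernel

theorem gfv_val (j : Fin 12) : gfv sb 112783871 yb j = VB j := by
  revert j
  decide +kernel

theorem dvdM {q : ℕ} (hq : q.Prime) (hq1 : q ≤ QQ) : (q : ℤ) ∣ ((QQ.factorial : ℕ) : ℤ) := by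
  exact_mod_cast Nat.dvd_factorial hq.pos hq1

theorem castAB {a b : ℤ} {q : ℕ} (hq : q.Prime) (hq1 : q ≤ QQ)
    (h : ((QQ.factorial : ℕ) : ℤ) ∣ a - b) : (a : ZMod q) = (b : ZMod q) := by
  rw [← sub_eq_zero, ← Int.cast_sub]
  exact (ZMod.intCast_zmod_eq_zero_iff_dvd _ q).2 ((dvdM hq hq1).trans h)

/-- the congruences of REL -/
def Cg (T : Par) : Prop :=
  (∀ i, ((QQ.factorial : ℕ) : ℤ) ∣ sa T.1 i - sb i) ∧
  ((QQ.factorial : ℕ) : ℤ) ∣ tt T - 112783871 ∧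
  (∀ k, ((QQ.factorial : ℕ) : ℤ) ∣ yy T k - yb k) ∧
  ((QQ.factorial : ℕ) : ℤ) ∣ cA T - (-4377541490977117787119897) ∧
  ((QQ.factorial : ℕ) : ℤ) ∣ cB T - 3555673705654245650846984137269176689

theorem castw {T : Par} (h : Cg T) {q : ℕ} (hq : q.Prime) (hq1 : q ≤ QQ) :
    (fun i => Int.castRingHom (ZMod q) (sa T.1 i)) =
      (fun i => Int.castRingHom (ZMod q) (sb i)) ∧
    Int.castRingHom (ZMod q) (tt T) = Int.castRingHom (ZMod q) 112783871 ∧
    (fun k => Int.castRingHom (ZMod q) (yy T k)) =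
      (fun k => Int.castRingHom (ZMod q) (yb k)) :=
  ⟨funext fun i => castAB hq hq1 (h.1 i), castAB hq hq1 h.2.1,
    funext fun k => castAB hq hq1 (h.2.2.1 k)⟩

theorem px_cast {T : Par} (h : Cg T) {q : ℕ} (hq : q.Prime) (hq1 : q ≤ QQ) (j : Fin 12) :
    ((px T j : ℤ) : ZMod q) = ((XB j : ℤ) : ZMod q) := by
  have e1 : px T j = gfx (sa T.1) (tt T) (yy T) j := rfl
  rw [← gfx_val, e1]
  have h1 := map_gfx (Int.castRingHom (ZMod q)) (sa T.1) (tt T) (yy T) j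
  have h2 := map_gfx (Int.castRingHom (ZMod q)) sb 112783871 yb j
  obtain ⟨c1, c2, c3⟩ := castw h hq hq1
  rw [c1, c2, c3, ← h2] at h1
  exact h1

theorem pv_cast {T : Par} (h : Cg T) {q : ℕ} (hq : q.Prime) (hq1 : q ≤ QQ) (j : Fin 12) :
    ((pv T j : ℤ) : ZMod q) = ((VB j : ℤ) : ZMod q) := by
  have e1 : pv T j = gfv (sa T.1) (tt T) (yy T) j := rfl
  rw [← gfv_val, e1]
  have h1 := map_gfv (Int.castRingHom (ZMod q)) (sa T.1) (tt T) (yy T) j
  have h2 := map_gfv (Int.castRingHom (ZMod q)) sb 112783871 yb j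
  obtain ⟨c1, c2, c3⟩ := castw h hq hq1
  rw [c1, c2, c3, ← h2] at h1
  exact h1

/-- the signs -/
def EE : Fin 12 → Fin 12 → ℤ := ![
  ![-1, 1, -1, -1, 1, -1, -1, -1, 1, 1, -1, -1],
  ![-1, -1, 1, -1, 1, 1, 1, 1, -1, 1, -1, -1],
  ![-1, 1, 1, -1, -1, 1, -1, 1, -1, -1, 1, 1],
  ![1, -1, -1, 1, -1, 1, -1, -1, 1, -1, -1, -1],
  ![-1, 1, -1, -1, 1, -1, 1, 1, -1, -1, -1, -1],
  ![1, 1, 1, -1, 1, -1, -1, -1, 1, -1, -1, -1],
  ![1, 1, -1, -1, 1, -1, 1, 1, -1, -1, 1, -1],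
  ![1, -1, -1, 1, 1, -1, -1, 1, 1, 1, 1, -1],
  ![1, -1, 1, -1, 1, -1, 1, 1, 1, -1, 1, -1],
  ![-1, 1, 1, -1, 1, -1, -1, 1, 1, 1, -1, 1],
  ![1, -1, 1, 1, 1, -1, -1, 1, 1, 1, 1, -1],
  ![1, 1, 1, -1, 1, 1, -1, 1, -1, 1, 1, -1]]

/-- the inverse over the field with two elements -/
def NN : Fin 12 → Fin 12 → ℕ := ![
  ![0, 0, 1, 1, 0, 1, 0, 1, 1, 0, 1, 1],
  ![0, 1, 0, 0, 0, 0, 1, 1, 1, 1, 0, 0],
  ![0, 0, 0, 0, 0, 0, 0, 1, 0, 0, 1, 0],
  ![1, 0, 1, 1, 1, 0, 0, 1, 1, 1, 1, 0],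
  ![0, 1, 0, 1, 0, 1, 0, 1, 0, 1, 1, 1],
  ![1, 0, 1, 1, 1, 0, 1, 0, 0, 1, 1, 1],
  ![0, 0, 0, 0, 1, 0, 0, 1, 1, 1, 0, 1],
  ![0, 1, 1, 1, 0, 0, 0, 1, 0, 0, 1, 0],
  ![0, 1, 0, 0, 0, 0, 0, 0, 0, 1, 1, 0],
  ![1, 0, 1, 1, 0, 0, 0, 0, 1, 0, 0, 1],
  ![0, 0, 1, 1, 1, 1, 1, 1, 1, 0, 1, 1],
  ![1, 1, 1, 1, 0, 0, 0, 0, 0, 1, 0, 0]]

theorem tab : ∀ j i : Fin 12, ∏ n, EE n i ^ NN j n = if i = j then -1 else 1 := by
  decide +kernel

theorem comb (S : Finset (Fin 12)) (hS : S.Nonempty) (h : ∀ n, ∏ i ∈ S, EE n i = 1) :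
    False := by
  obtain ⟨j, hj⟩ := hS
  have h1 : ∏ n, (∏ i ∈ S, EE n i) ^ NN j n = 1 :=
    Finset.prod_eq_one fun n _ => by rw [h n, one_pow]
  have h2 : ∏ n, (∏ i ∈ S, EE n i) ^ NN j n = ∏ i ∈ S, (if i = j then (-1 : ℤ) else 1) := by
    simp_rw [← Finset.prod_pow]
    rw [Finset.prod_comm]
    exact Finset.prod_congr rfl fun i _ => tab j i
  rw [h2, Finset.prod_ite_eq', if_pos hj] at h1
  exact absurd h1 (by decide)

/-- from a square to signs -/
theorem sq1 (q : ℕ) (hq : q.Prime) (r : Fin 12 → ZMod q) (E : Fin 12 → ℤ)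
    [DecidablePred (IsSquare : ZMod q → Prop)]
    (h : ∀ i, r i ≠ 0 ∧ (if IsSquare (r i) then (1 : ℤ) else -1) = E i) (S : Finset (Fin 12))
    (hs : IsSquare (∏ i ∈ S, r i)) : ∏ i ∈ S, E i = 1 := by
  have : Fact q.Prime := ⟨hq⟩
  have : NeZero q := ⟨hq.ne_zero⟩
  have key : ∀ a : ZMod q, a ≠ 0 →
      quadraticChar (ZMod q) a = if IsSquare a then (1 : ℤ) else -1 := by
    intro a ha
    by_cases hsq : IsSquare a
    · rw [if_pos hsq]
      exact (quadraticChar_one_iff_isSquare ha).2 hsq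
    · rw [if_neg hsq]
      exact quadraticChar_neg_one_iff_not_isSquare.2 hsq
  have h1 : quadraticChar (ZMod q) (∏ i ∈ S, r i) = ∏ i ∈ S, E i := by
    rw [map_prod]
    exact Finset.prod_congr rfl fun i _ => (key _ (h i).1).trans (h i).2
  rw [← h1]
  exact (quadraticChar_one_iff_isSquare (Finset.prod_ne_zero_iff.2 fun i _ => (h i).1)).2 hs

theorem ch0 (S : Finset (Fin 12))
    (hs : IsSquare (∏ i ∈ S, ((XB i - 10 * VB i ^ 2 : ℤ) : ZMod 13))) :
    ∏ i ∈ S, EE 0 i = 1 :=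
  sq1 13 (by norm_num) (fun i => ((XB i - 10 * VB i ^ 2 : ℤ) : ZMod 13)) (EE 0)
    (by decide +kernel) S hs

theorem ch1 (S : Finset (Fin 12))
    (hs : IsSquare (∏ i ∈ S, ((XB i - 1 * VB i ^ 2 : ℤ) : ZMod 19))) :
    ∏ i ∈ S, EE 1 i = 1 :=
  sq1 19 (by norm_num) (fun i => ((XB i - 1 * VB i ^ 2 : ℤ) : ZMod 19)) (EE 1)
    (by decide +kernel) S hs

theorem ch2 (S : Finset (Fin 12))
    (hs : IsSquare (∏ i ∈ S, ((XB i - 16 * VB i ^ 2 : ℤ) : ZMod 23))) :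
    ∏ i ∈ S, EE 2 i = 1 :=
  sq1 23 (by norm_num) (fun i => ((XB i - 16 * VB i ^ 2 : ℤ) : ZMod 23)) (EE 2)
    (by decide +kernel) S hs

theorem ch3 (S : Finset (Fin 12))
    (hs : IsSquare (∏ i ∈ S, ((XB i - 17 * VB i ^ 2 : ℤ) : ZMod 23))) :
    ∏ i ∈ S, EE 3 i = 1 :=
  sq1 23 (by norm_num) (fun i => ((XB i - 17 * VB i ^ 2 : ℤ) : ZMod 23)) (EE 3)
    (by decide +kernel) S hs

theorem ch4 (S : Finset (Fin 12))
    (hs : IsSquare (∏ i ∈ S, ((XB i - 21 * VB i ^ 2 : ℤ) : ZMod 29))) :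
    ∏ i ∈ S, EE 4 i = 1 :=
  sq1 29 (by norm_num) (fun i => ((XB i - 21 * VB i ^ 2 : ℤ) : ZMod 29)) (EE 4)
    (by decide +kernel) S hs

theorem ch5 (S : Finset (Fin 12))
    (hs : IsSquare (∏ i ∈ S, ((XB i - 0 * VB i ^ 2 : ℤ) : ZMod 37))) :
    ∏ i ∈ S, EE 5 i = 1 :=
  sq1 37 (by norm_num) (fun i => ((XB i - 0 * VB i ^ 2 : ℤ) : ZMod 37)) (EE 5)
    (by decide +kernel) S hs

theorem ch6 (S : Finset (Fin 12))
    (hs : IsSquare (∏ i ∈ S, ((XB i - 6 * VB i ^ 2 : ℤ) : ZMod 41))) :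
    ∏ i ∈ S, EE 6 i = 1 :=
  sq1 41 (by norm_num) (fun i => ((XB i - 6 * VB i ^ 2 : ℤ) : ZMod 41)) (EE 6)
    (by decide +kernel) S hs

theorem ch7 (S : Finset (Fin 12))
    (hs : IsSquare (∏ i ∈ S, ((XB i - 17 * VB i ^ 2 : ℤ) : ZMod 41))) :
    ∏ i ∈ S, EE 7 i = 1 :=
  sq1 41 (by norm_num) (fun i => ((XB i - 17 * VB i ^ 2 : ℤ) : ZMod 41)) (EE 7)
    (by decide +kernel) S hs

theorem ch8 (S : Finset (Fin 12))
    (hs : IsSquare (∏ i ∈ S, ((XB i - 17 * VB i ^ 2 : ℤ) : ZMod 43))) :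
    ∏ i ∈ S, EE 8 i = 1 :=
  sq1 43 (by norm_num) (fun i => ((XB i - 17 * VB i ^ 2 : ℤ) : ZMod 43)) (EE 8)
    (by decide +kernel) S hs

theorem ch9 (S : Finset (Fin 12))
    (hs : IsSquare (∏ i ∈ S, ((XB i - 28 * VB i ^ 2 : ℤ) : ZMod 43))) :
    ∏ i ∈ S, EE 9 i = 1 :=
  sq1 43 (by norm_num) (fun i => ((XB i - 28 * VB i ^ 2 : ℤ) : ZMod 43)) (EE 9)
    (by decide +kernel) S hs

theorem ch10 (S : Finset (Fin 12))
    (hs : IsSquare (∏ i ∈ S, ((XB i - 4 * VB i ^ 2 : ℤ) : ZMod 47))) :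
    ∏ i ∈ S, EE 10 i = 1 :=
  sq1 47 (by norm_num) (fun i => ((XB i - 4 * VB i ^ 2 : ℤ) : ZMod 47)) (EE 10)
    (by decide +kernel) S hs

theorem ch11 (S : Finset (Fin 12))
    (hs : IsSquare (∏ i ∈ S, ((XB i - 14 * VB i ^ 2 : ℤ) : ZMod 47))) :
    ∏ i ∈ S, EE 11 i = 1 :=
  sq1 47 (by norm_num) (fun i => ((XB i - 14 * VB i ^ 2 : ℤ) : ZMod 47)) (EE 11)
    (by decide +kernel) S hs

theorem dec12 (S : Finset (Fin 12)) (hS : S.Nonempty) :
    ¬ IsSquare (∏ i ∈ S, ((XB i - 10 * VB i ^ 2 : ℤ) : ZMod 13)) ∨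
    ¬ IsSquare (∏ i ∈ S, ((XB i - 1 * VB i ^ 2 : ℤ) : ZMod 19)) ∨
    ¬ IsSquare (∏ i ∈ S, ((XB i - 16 * VB i ^ 2 : ℤ) : ZMod 23)) ∨
    ¬ IsSquare (∏ i ∈ S, ((XB i - 17 * VB i ^ 2 : ℤ) : ZMod 23)) ∨
    ¬ IsSquare (∏ i ∈ S, ((XB i - 21 * VB i ^ 2 : ℤ) : ZMod 29)) ∨
    ¬ IsSquare (∏ i ∈ S, ((XB i - 0 * VB i ^ 2 : ℤ) : ZMod 37)) ∨
    ¬ IsSquare (∏ i ∈ S, ((XB i - 6 * VB i ^ 2 : ℤ) : ZMod 41)) ∨
    ¬ IsSquare (∏ i ∈ S, ((XB i - 17 * VB i ^ 2 : ℤ) : ZMod 41)) ∨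
    ¬ IsSquare (∏ i ∈ S, ((XB i - 17 * VB i ^ 2 : ℤ) : ZMod 43)) ∨
    ¬ IsSquare (∏ i ∈ S, ((XB i - 28 * VB i ^ 2 : ℤ) : ZMod 43)) ∨
    ¬ IsSquare (∏ i ∈ S, ((XB i - 4 * VB i ^ 2 : ℤ) : ZMod 47)) ∨
    ¬ IsSquare (∏ i ∈ S, ((XB i - 14 * VB i ^ 2 : ℤ) : ZMod 47)) := by
  by_contra hc
  simp only [not_or, not_not] at hc
  obtain ⟨h0, h1, h2, h3, h4, h5, h6, h7, h8, h9, h10, h11⟩ := hc
  refine comb S hS fun n => ?_
  fin_cases n
  · exact ch0 S h0
  · exact ch1 S h1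
  · exact ch2 S h2
  · exact ch3 S h3
  · exact ch4 S h4
  · exact ch5 S h5
  · exact ch6 S h6
  · exact ch7 S h7
  · exact ch8 S h8
  · exact ch9 S h9
  · exact ch10 S h10
  · exact ch11 S h11

theorem noroot (x : ZMod 17) :
    x ^ 3 + ((-4377541490977117787119897 : ℤ) : ZMod 17) * x +
      ((3555673705654245650846984137269176689 : ℤ) : ZMod 17) ≠ 0 := by
  revert x
  decide

theorem step {T : Par} (h : Cg T) (S : Finset (Fin 12)) (q : ℕ) (e : ℤ) (hq : q.Prime)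
    (hq1 : q ≤ QQ)
    (h1 : ((e ^ 3 + (-4377541490977117787119897) * e + 3555673705654245650846984137269176689 : ℤ) :
      ZMod q) = 0)
    (h2 : ((3 * e ^ 2 + (-4377541490977117787119897) : ℤ) : ZMod q) ≠ 0)
    (h3 : ¬ IsSquare (∏ i ∈ S, ((XB i - e * VB i ^ 2 : ℤ) : ZMod q))) :
    ∃ (q : ℕ) (e : ℤ), q.Prime ∧
      ((e ^ 3 + cA T * e + cB T : ℤ) : ZMod q) = 0 ∧ ((3 * e ^ 2 + cA T : ℤ) : ZMod q) ≠ 0 ∧
      ¬ IsSquare (∏ i ∈ S, ((px T i - e * pv T i ^ 2 : ℤ) : ZMod q)) := by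
  have cA' := castAB hq hq1 h.2.2.2.1
  have cB' := castAB hq hq1 h.2.2.2.2
  refine ⟨q, e, hq, ?_, ?_, ?_⟩
  · rw [← h1]
    simp only [Int.cast_add, Int.cast_mul, Int.cast_pow]
    rw [cA', cB']
  · intro h4
    apply h2
    rw [← h4]
    simp only [Int.cast_add, Int.cast_mul, Int.cast_pow]
    rw [cA']
  · intro h4
    apply h3
    refine (congrArg IsSquare ?_).mp h4
    apply Finset.prod_congr rfl
    intro i _
    simp only [Int.cast_sub, Int.cast_mul, Int.cast_pow]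
    rw [px_cast h hq hq1 i, pv_cast h hq hq1 i]

end S46

open S46 in
/-- row CERT -/
theorem st_CERT (hREL : ST_REL) (hPTS : ST_PTS) (hR : Pool.Helper17.R8.ST_RANKQ) : ST_CERT := by
  intro T
  have hT : Cg T := (hREL T).2.2.2.2
  obtain ⟨-, -, -, hA, hB⟩ := id hT
  have hdisc : 4 * cA T ^ 3 + 27 * cB T ^ 2 ≠ 0 := by
    intro h
    have h3 := congrArg (fun z : ℤ => (z : ZMod 17)) h
    simp only [Int.cast_add, Int.cast_mul, Int.cast_pow] at h3
    rw [castAB (by norm_num) (by unfold QQ; norm_num) hA,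
      castAB (by norm_num) (by unfold QQ; norm_num) hB] at h3
    revert h3
    decide
  refine ⟨hdisc, ?_, ?_⟩
  · intro q hq hq1 hdv
    obtain ⟨ha, hb⟩ := hdv
    have hqM := dvdM hq hq1
    have ha' : (q : ℤ) ∣ -4377541490977117787119897 :=
      (dvd_sub_right ha).1 (hqM.trans hA)
    have hb' : (q : ℤ) ∣ 3555673705654245650846984137269176689 :=
      (dvd_sub_right hb).1 (hqM.trans hB)
    have h1' : (q : ℤ) ∣ 1 := by
      have e2 : IsCoprime (-4377541490977117787119897 : ℤ)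
          3555673705654245650846984137269176689 := by
        rw [Int.isCoprime_iff_gcd_eq_one]
        norm_num
      obtain ⟨a, b, hab⟩ := e2
      rw [← hab]
      exact dvd_add (ha'.mul_left a) (hb'.mul_left b)
    have h2' : q ∣ 1 := by exact_mod_cast h1'
    exact hq.one_lt.ne' (Nat.dvd_one.1 h2')
  · have h12 : ((12 : ℕ) : Cardinal) ≤
        Module.rank ℤ ((cur (cA T) (cB T)).toAffine).Point := by
      refine hR 12 _ _ (px T) (pv T) (fun i => (hPTS T i).1) (fun i => (hPTS T i).2) hdisc 17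
        ?_ ?_
      · intro x
        rw [castAB (by norm_num) (by unfold QQ; norm_num) hA,
          castAB (by norm_num) (by unfold QQ; norm_num) hB]
        exact noroot x
      · intro S hS
        rcases dec12 S hS with h | h | h | h | h | h | h | h | h | h | h | h
        · exact step hT S 13 10 (by norm_num) (by unfold QQ; norm_num) (by decide)
            (by decide) h
        · exact step hT S 19 1 (by norm_num) (by unfold QQ; norm_num) (by decide)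
            (by decide) h
        · exact step hT S 23 16 (by norm_num) (by unfold QQ; norm_num) (by decide)
            (by decide) h
        · exact step hT S 23 17 (by norm_num) (by unfold QQ; norm_num) (by decide)
            (by decide) h
        · exact step hT S 29 21 (by norm_num) (by unfold QQ; norm_num) (by decide)
            (by decide) h
        · exact step hT S 37 0 (by norm_num) (by unfold QQ; norm_num) (by decide)
            (by decide) h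
        · exact step hT S 41 6 (by norm_num) (by unfold QQ; norm_num) (by decide)
            (by decide) h
        · exact step hT S 41 17 (by norm_num) (by unfold QQ; norm_num) (by decide)
            (by decide) h
        · exact step hT S 43 17 (by norm_num) (by unfold QQ; norm_num) (by decide)
            (by decide) h
        · exact step hT S 43 28 (by norm_num) (by unfold QQ; norm_num) (by decide)
            (by decide) h
        · exact step hT S 47 4 (by norm_num) (by unfold QQ; norm_num) (by decide)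
            (by decide) h
        · exact step hT S 47 14 (by norm_num) (by unfold QQ; norm_num) (by decide)
            (by decide) h
    exact_mod_cast h12

end Pool.Helper67.R12
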